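import Pool.Agent.Run7.h568.Final

/-!
# Uniqueness of the AdS convex core for pairs adapted to an orientation-reversing involution

Let `S` be a closed oriented surface cut into hexagons by two multicurves `α` and `β`, such that
each component of `α` meets `β` exactly twice (`HexPattern`); equivalently `S` carries an
orientation-reversing involution which fixes `β` pointwise and leaves each component of the pants
decomposition `α` invariant.  By Mess, a GHMC AdS structure on `S × ℝ` is given by its left and
right metrics, and its bending laminations are `½ Σ a α` and `½ Σ b β` exactly when the left metric
is obtained from the right one by the left earthquake along `Σ a α` and also by the right
earthquake along `Σ b β` (`Core`).  The theorem says that the two metrics are determined by the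
weights.  Weights of the opposite sign correspond to exchanging left and right earthquakes, that is
the future and the past boundary components.
-/

open Run7.h568

/-- For a hexagonal pattern `P`, arbitrary real weights `a` on `α`, and weights `b` on `β` which
are all nonnegative or all nonpositive and such that every component of `α` meets a component of
`β` with nonzero weight, there is at most one pair (left metric, right metric) such that the left
metric is the image of the right one both under the left earthquake along `Σ a α` and under the
right earthquake along `Σ b β`. -/
theorem Run7.h568.involution_pairs {V : Type*} [Fintype V]
    (P : HexPattern V) (a b : V → ℝ) (hb : (∀ p, 0 ≤ b p) ∨ (∀ p, b p ≤ 0))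
    (hfill : ∀ p, b p ≠ 0 ∨ b (P.iota p) ≠ 0) (C C' : Core P a b) :
    C.left = C'.left ∧ C.right = C'.right :=
  core_unique hb hfill C C'
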